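import Pool.Agent.Helper12.MA.StA
import Pool.Agent.Helper12.MA.Lib

/-!
# Project MA, module EFZ: a new vertex in the union of two faces with the common edge removed
-/

set_option autoImplicit false

namespace Pool.Agent.Helper29.MA

open Pool.Agent.Helper12.MA
open Pool.Agent.Helper51.AJ (IsMinor Planar Apex ExMinor Con Tch)
open Pool.Agent.Helper12.NK (rst Kc add cnt Pcy IsFace Cof plus)

/-- faces only depend on the edges inside `U` -/
private lemma face_congr {V : Type} [Finite V] {G H : SimpleGraph V} {U F : Set V}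
    (h : ∀ a ∈ U, ∀ b ∈ U, (G.Adj a b ↔ H.Adj a b)) (hF : IsFace G U F) : IsFace H U F := by
  obtain ⟨m, c, ⟨h3, hinj, hsub, hadj, hcon⟩, hr⟩ := hF
  refine ⟨m, c, ⟨h3, hinj, hsub, ?_, ?_⟩, hr⟩
  · intro i j
    rw [← hadj i j]
    exact (h _ (hsub ⟨i, rfl⟩) _ (hsub ⟨j, rfl⟩)).symm
  · have h5 := (nKCA V G U).2.2.2.2.1 H (U \ Set.range c)
      (fun a ha b hb => h a ha.1 b hb.1)
    exact h5.1 hcon

/-- connectivity only depends on the edges inside `U` -/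
private lemma kc_congr {V : Type} [Finite V] {G H : SimpleGraph V} {U : Set V} {k : ℕ}
    (h : ∀ a ∈ U, ∀ b ∈ U, (G.Adj a b ↔ H.Adj a b)) (hk : Kc k G U) : Kc k H U := by
  refine ⟨hk.1, ?_⟩
  intro X hX
  have h5 := (nKCA V G U).2.2.2.2.1 H (U \ X) (fun a ha b hb => h a ha.1 b hb.1)
  exact h5.1 (hk.2 X hX)

theorem hEFZ : StFAX → StFNB → StMRG → StEFL → StEFZ := by
  intro hFAX hFNB hMRG hEFL
  intro V _ M U z p q r r' F F' hPn hz hpq hF hF' hFF hpF hqF hpF' hqF' hrF hrp hrq hr'F' hr'p hr'q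
  have hFU : F ⊆ U := (hFAX V M U F hF).1
  have hFU' : F' ⊆ U := (hFAX V M U F' hF').1
  have hpU : p ∈ U := hFU hpF
  have hqU : q ∈ U := hFU hqF
  have hrU : r ∈ U := hFU hrF
  have hr'U : r' ∈ U := hFU' hr'F'
  have hzp : z ≠ p := fun h => hz (h ▸ hpU)
  have hzq : z ≠ q := fun h => hz (h ▸ hqU)
  have hzr : z ≠ r := fun h => hz (h ▸ hrU)
  have hzr' : z ≠ r' := fun h => hz (h ▸ hr'U)
  have hpq' : p ≠ q := M.ne_of_adj hpq
  obtain ⟨M₁, hM₁⟩ : ∃ M₁, M₁ = add (rst M U) z {p, q, r} := ⟨_, rfl⟩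
  obtain ⟨U₁, hU₁⟩ : ∃ U₁, U₁ = insert z U := ⟨_, rfl⟩
  have hUz : U₁ \ {z} = U := by
    rw [hU₁]
    ext x
    simp only [Set.mem_diff, Set.mem_insert_iff, Set.mem_singleton_iff]
    constructor
    · rintro ⟨h | h, h'⟩
      · exact absurd h h'
      · exact h
    · intro h
      exact ⟨Or.inr h, fun h' => hz (h' ▸ h)⟩
  have hzU₁ : z ∈ U₁ := by rw [hU₁]; exact Set.mem_insert _ _
  have hUU₁ : U ⊆ U₁ := by rw [hU₁]; exact Set.subset_insert _ _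
  -- adjacency in `M₁`
  have hag : ∀ a ∈ U, ∀ b ∈ U, (M.Adj a b ↔ M₁.Adj a b) := by
    intro a ha b hb
    rw [hM₁]
    constructor
    · intro h
      exact Or.inl ⟨h, ha, hb⟩
    · rintro (h | h | h)
      · exact h.1
      · exact absurd (h.1 ▸ ha) hz
      · exact absurd (h.1 ▸ hb) hz
  have hag' : ∀ a ∈ U, ∀ b ∈ U, (M₁.Adj a b ↔ M.Adj a b) := fun a ha b hb => (hag a ha b hb).symm
  have hzadj : ∀ b, b = p ∨ b = q ∨ b = r → M₁.Adj z b := by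
    intro b hb
    rw [hM₁]
    refine Or.inr (Or.inl ⟨rfl, ?_, ?_⟩)
    · simpa [Set.mem_insert_iff] using hb
    · rcases hb with h | h | h
      · rw [h]; exact hzp.symm
      · rw [h]; exact hzq.symm
      · rw [h]; exact hzr.symm
  have hzadj' : ∀ b, M₁.Adj z b → b = p ∨ b = q ∨ b = r := by
    intro b hb
    rw [hM₁] at hb
    rcases hb with h | h | h
    · exact absurd h.2.1 hz
    · simpa [Set.mem_insert_iff] using h.2.1
    · exact absurd rfl h.2.2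
  have hN : ({p, q, r} : Set V) ⊆ F := by
    intro x hx
    rcases hx with h | h | h
    · rw [h]; exact hpF
    · rw [h]; exact hqF
    · rw [Set.mem_singleton_iff.1 h]; exact hrF
  have hNU : ({p, q, r} : Set V) ⊆ U := hN.trans hFU
  have hN3 : 3 ≤ ({p, q, r} : Set V).ncard := by
    rw [Set.ncard_eq_three.2 ⟨p, q, r, hpq', hrp.symm, hrq.symm, rfl⟩]
  -- `M₁` is 3-connected and planar
  have hKc : Kc 3 M₁ U₁ := by
    rw [hM₁, hU₁]
    exact (nKCB V M U).2 z {p, q, r} hPn.1 hz hNU hN3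
  have hpl : Planar M₁ := by
    rw [hM₁]
    exact nINS V M U F {p, q, r} z hPn.1 hPn.2 hF hN hz
  have hPn₁ : Pn M₁ U₁ := by
    refine ⟨hKc, ?_⟩
    exact (nKCA V M U).2.2.2.2.2.1 (rst M₁ U₁) M₁ (fun a b h => h.1) hpl
  obtain ⟨f1, f2, f3, f4, f5, f6⟩ := hFNB V M₁ U₁ hPn₁
  have hKcU : Kc 3 M₁ (U₁ \ {z}) := by
    rw [hUz]
    exact kc_congr hag hPn.1
  obtain ⟨m1, m2, m3⟩ := hMRG V M₁ U₁ z hPn₁ hzU₁ hKcU
  rw [hUz] at m1 m2
  -- `F'` is a face of `M₁`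
  have hS : ∀ b, b = p ∨ b = q ∨ b = r → b ∈ {t | t ≠ z ∧ Cof M₁ U₁ z t} := by
    intro b hb
    have hbU : b ∈ U := by
      rcases hb with h | h | h
      · rw [h]; exact hpU
      · rw [h]; exact hqU
      · rw [h]; exact hrU
    refine ⟨fun h => hz (h ▸ hbU), ?_⟩
    exact f6 z hzU₁ b (hUU₁ hbU) (hzadj b hb)
  obtain ⟨g1, g2, g3, g4, g5, g6⟩ := hFNB V M U hPn
  have hSF : {t | t ≠ z ∧ Cof M₁ U₁ z t} = F := by
    refine g5 _ F (face_congr hag' m1) hF p q r (hS p (Or.inl rfl)) (hS q (Or.inr (Or.inl rfl)))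
      (hS r (Or.inr (Or.inr rfl))) hpF hqF hrF hpq' hrq.symm hrp.symm
  have hF'₁ : IsFace M₁ U₁ F' ∧ z ∉ F' := by
    rcases m2 F' (face_congr hag hF') with h | h
    · exact h
    · exfalso
      apply hFF
      rw [← hSF, ← h]
  -- a face through `z`, `p`, `q`
  have hD : ∃ D, IsFace M₁ U₁ D ∧ z ∈ D ∧ p ∈ D ∧ q ∈ D := by
    obtain ⟨D₁, D₂, h1, h2, hne, hz1, hp1, hz2, hp2, -⟩ :=
      f1 z hzU₁ p (hUU₁ hpU) (hzadj p (Or.inl rfl))
    obtain ⟨b₁, hb₁, hb₁p, hb₁z, -⟩ := f2 z hzU₁ p (hUU₁ hpU) (hzadj p (Or.inl rfl)) D₁ h1 hz1 hp1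
    obtain ⟨b₂, hb₂, hb₂p, hb₂z, -⟩ := f2 z hzU₁ p (hUU₁ hpU) (hzadj p (Or.inl rfl)) D₂ h2 hz2 hp2
    rcases hzadj' b₁ hb₁z with h | h | h
    · exact absurd h hb₁p
    · exact ⟨D₁, h1, hz1, hp1, h ▸ hb₁⟩
    · rcases hzadj' b₂ hb₂z with h' | h' | h'
      · exact absurd h' hb₂p
      · exact ⟨D₂, h2, hz2, hp2, h' ▸ hb₂⟩
      · exfalso
        apply hne
        exact f5 D₁ D₂ h1 h2 z p r hz1 hp1 (h ▸ hb₁) hz2 hp2 (h' ▸ hb₂) hzp hrp.symm hzr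
  obtain ⟨D, hD, hzD, hpD, hqD⟩ := hD
  have hDF' : D ≠ F' := fun h => hF'₁.2 (h ▸ hzD)
  have hpq₁ : M₁.Adj p q := (hag p hpU q hqU).1 hpq
  have hmain := hEFL V M₁ U₁ p q z r' D F' hPn₁ hpq₁ hD hF'₁.1 hDF' hpD hqD hpF' hqF' hzD hzp hzq
    hr'F' hr'p hr'q
  refine (nKCA V M U).2.2.2.2.2.1 _ _ ?_ hmain
  have hkey : ∀ b, (b = p ∨ b = q ∨ b = r ∨ b = r') →
      (rst (ae (dl M₁ p q) z r') U₁).Adj z b := by
    intro b hb
    have hbU : b ∈ U := by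
      rcases hb with h | h | h | h
      · rw [h]; exact hpU
      · rw [h]; exact hqU
      · rw [h]; exact hrU
      · rw [h]; exact hr'U
    refine ⟨?_, hzU₁, hUU₁ hbU⟩
    have h3 : (b = p ∨ b = q ∨ b = r) ∨ b = r' := by tauto
    rcases h3 with h | h
    · exact Or.inl ⟨hzadj b h, fun h' => hzp h'.1, fun h' => hzq h'.1⟩
    · exact Or.inr ⟨by rw [h]; exact hzr', Or.inl ⟨rfl, h⟩⟩
  intro a b hab
  rcases hab with h | h | h
  · obtain ⟨⟨h1, h2, h3⟩, ha, hb⟩ := h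
    exact ⟨Or.inl ⟨(hag a ha b hb).1 h1, h2, h3⟩, hUU₁ ha, hUU₁ hb⟩
  · rw [h.1]
    exact hkey b (by simpa [Set.mem_insert_iff] using h.2.1)
  · rw [h.1]
    exact (hkey a (by simpa [Set.mem_insert_iff] using h.2.1)).symm

end Pool.Agent.Helper29.MA
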